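import Pool.Agent.Y840.CT.LowF
import Pool.Agent.Y677.RSZ.FinEx
import Pool.Agent.W182.PW.Lin

set_option autoImplicit false

/-!
# Chen's theorem for patterns and narrow progressions
-/

open Polynomial Finset Filter Topology

namespace Pool.Agent.Y677.KC

open Pool.Agent.W123.RU
open Pool.Agent.TH977.PW (N)
open Pool.Agent.Y677.RSZ (InProg Outside)
open Pool.Agent.W182.PW (lin lin_eval lin_irr lin_deg lin_lead)
open Pool.Agent.Y840.CT (SysF GoodF VF VF_low genF rho)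

/-- all prime factors of the `n + e l` are larger than `n ^ (1 / s)` -/
def R {k : ℕ} (e : Fin k → ℕ) (s : ℕ) : Set ℕ :=
  {n | ∀ l, ∀ p : ℕ, p.Prime → p ∣ n + e l → (n : ℝ) ^ (1 / (s : ℝ)) < (p : ℝ)}

/-- moreover `n + e i` is prime and `n + e j` has at most two prime factors, both `> n ^ (1 / 9)` -/
def T {k : ℕ} (e : Fin k → ℕ) (t : ℕ) (i j : Fin k) : Set ℕ :=
  {n | n ∈ R e t ∧ (n + e i).Prime ∧ (n + e j).primeFactorsList.length ≤ 2 ∧
    ∀ p : ℕ, p.Prime → p ∣ n + e j → (n : ℝ) ^ (1 / (9 : ℝ)) < (p : ℝ)}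

/-- the pattern is admissible -/
structure Pat {k : ℕ} (e : Fin k → ℕ) : Prop where
  inj : Function.Injective e
  adm : ∀ q : ℕ, q.Prime → ∃ n : ℕ, ∀ l, ¬ q ∣ n + e l

lemma rpow_mono (n s t : ℕ) (hs : 1 ≤ s) (hst : s ≤ t) :
    (n : ℝ) ^ (1 / (t : ℝ)) ≤ (n : ℝ) ^ (1 / (s : ℝ)) := by
  have hs0 : (0 : ℝ) < s := by exact_mod_cast hs
  have ht0 : (0 : ℝ) < t := by exact_mod_cast (by omega : 0 < t)
  rcases Nat.eq_zero_or_pos n with h | h
  · subst h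
    rw [Nat.cast_zero, Real.zero_rpow (by positivity), Real.zero_rpow (by positivity)]
  · apply Real.rpow_le_rpow_of_exponent_le (by exact_mod_cast h)
    apply one_div_le_one_div_of_le hs0
    exact_mod_cast hst

lemma R_mono {k : ℕ} (e : Fin k → ℕ) {s t : ℕ} (hs : 1 ≤ s) (hst : s ≤ t) : R e s ⊆ R e t :=
  fun n hn l p hp hd => (rpow_mono n s t hs hst).trans_lt (hn l p hp hd)

lemma T_mono {k : ℕ} (e : Fin k → ℕ) {s t : ℕ} (hs : 1 ≤ s) (hst : s ≤ t) (i j : Fin k) :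
    T e s i j ⊆ T e t i j :=
  fun _ hn => ⟨R_mono e hs hst hn.1, hn.2⟩

/-- the shifts -/
def F {k : ℕ} (e : Fin k → ℕ) (i : Fin k) (_q : ℕ) : Finset ℤ :=
  (univ.erase i).image (fun l => (e i : ℤ) - e l)

lemma F_card {k : ℕ} (e : Fin k → ℕ) (i : Fin k) (q : ℕ) : (F e i q).card ≤ k - 1 := by
  unfold F
  refine card_image_le.trans ?_
  rw [card_erase_of_mem (mem_univ _), card_univ, Fintype.card_fin]

lemma mem_F {k : ℕ} {e : Fin k → ℕ} {i l : Fin k} (h : l ≠ i) (q : ℕ) :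
    (e i : ℤ) - e l ∈ F e i q := by
  unfold F
  rw [mem_image]
  exact ⟨l, mem_erase.2 ⟨h, mem_univ _⟩, rfl⟩

lemma loc {k : ℕ} {e : Fin k → ℕ} (he : Pat e) (i : Fin k) (q : ℕ) (hq : q.Prime) :
    rho (F e i q) q < q := by
  classical
  obtain ⟨n, hn⟩ := he.adm q hq
  have hq0 : (0 : ℤ) < q := by exact_mod_cast hq.pos
  have hne : (q : ℤ) ≠ 0 := hq0.ne'
  set c : ℤ := ((e i : ℤ) + n) % q with hc
  have hc0 : 0 ≤ c := Int.emod_nonneg _ hne
  have hcq : c < q := Int.emod_lt_of_pos _ hq0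
  have hsub : (insert 0 (F e i q)).image (fun h : ℤ => h % q) ⊆ (Ico (0 : ℤ) q).erase c := by
    intro x hx
    rw [mem_image] at hx
    obtain ⟨h, hh, rfl⟩ := hx
    rw [mem_erase, mem_Ico]
    refine ⟨fun hxc => ?_, Int.emod_nonneg _ hne, Int.emod_lt_of_pos _ hq0⟩
    have key : ∀ l : Fin k, h = (e i : ℤ) - e l → False := by
      intro l hl
      apply hn l
      have h1 : (q : ℤ) ∣ ((e i : ℤ) + n) - h := by
        have h2 : h ≡ (e i : ℤ) + n [ZMOD q] := by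
          show h % q = ((e i : ℤ) + n) % q
          exact hxc
        exact Int.modEq_iff_dvd.1 h2
      rw [hl] at h1
      have h3 : ((e i : ℤ) + n) - ((e i : ℤ) - e l) = ((n + e l : ℕ) : ℤ) := by
        push_cast
        ring
      rw [h3, Int.natCast_dvd_natCast] at h1
      exact h1
    rw [mem_insert] at hh
    rcases hh with hh | hh
    · exact key i (by rw [hh, sub_self])
    · unfold F at hh
      rw [mem_image] at hh
      obtain ⟨l, _, hl⟩ := hh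
      exact key l hl.symm
  unfold rho
  refine lt_of_le_of_lt (card_le_card hsub) ?_
  rw [card_erase_of_mem (mem_Ico.2 ⟨hc0, hcq⟩), Int.card_Ico]
  have := hq.pos
  omega

lemma sysF {k : ℕ} {e : Fin k → ℕ} (he : Pat e) {i j : Fin k} (hij : j ≠ i) {X : ℕ}
    (hX : ∀ l, e l ≤ X) : SysF (k - 1) X (F e i) ((e i : ℤ) - e j) := by
  refine ⟨fun q _ => F_card e i q, ?_, ?_, fun q _ => mem_F hij q, loc he i⟩
  · intro h
    have h3 : e i = e j := by omega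
    exact hij (he.inj h3).symm
  · have h1 := hX i
    have h2 := hX j
    rw [abs_le]
    constructor <;> omega

lemma good_T {k : ℕ} {e : Fin k → ℕ} {i j : Fin k} {t X' A B p : ℕ} (ht : 1 ≤ t)
    (hB : B ≤ X') (hA : e i ≤ A) (hp : p ∈ GoodF t X' A B (F e i) ((e i : ℤ) - e j)) :
    p - e i ∈ T e t i j ∧ A - e i < p - e i ∧ p - e i ≤ B - e i := by
  classical
  unfold GoodF at hp
  rw [mem_filter, mem_Ioc] at hp
  obtain ⟨⟨p1, p2⟩, p3, p4, ⟨p5, p6, p7⟩, p8⟩ := hp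
  obtain ⟨n, hn⟩ : ∃ n : ℕ, p = n + e i := ⟨p - e i, by omega⟩
  have hnp : p - e i = n := by omega
  rw [hnp]
  have hnX : (n : ℝ) ≤ X' := by exact_mod_cast (by omega : n ≤ X')
  have ht0 : (0 : ℝ) < t := by exact_mod_cast ht
  have hle : (n : ℝ) ^ (1 / (t : ℝ)) ≤ (X' : ℝ) ^ (1 / (t : ℝ)) :=
    Real.rpow_le_rpow (Nat.cast_nonneg n) hnX (by positivity)
  have hle9 : (n : ℝ) ^ (1 / (9 : ℝ)) ≤ (X' : ℝ) ^ (1 / (9 : ℝ)) :=
    Real.rpow_le_rpow (Nat.cast_nonneg n) hnX (by positivity)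
  have hd : ∀ (l : Fin k) (q : ℕ), (q : ℤ) ∣ (e i : ℤ) - e l - (p : ℤ) ↔ q ∣ n + e l := by
    intro l q
    have h : (e i : ℤ) - e l - (p : ℤ) = -((n + e l : ℕ) : ℤ) := by
      rw [hn]
      push_cast
      ring
    rw [h, dvd_neg, Int.natCast_dvd_natCast]
  refine ⟨⟨?_, ?_, ?_, ?_⟩, by omega, by omega⟩
  · intro l q hq hql
    by_contra hcon
    push Not at hcon
    by_cases hli : l = i
    · subst hli
      rw [← hn] at hql
      rw [(Nat.prime_dvd_prime_iff_eq hq p3).1 hql] at hcon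
      linarith
    · exact p8 q hq (hcon.trans hle) _ (mem_F hli q) ((hd l q).2 hql)
  · rw [← hn]
    exact p3
  · have h : (e i : ℤ) - e j - (p : ℤ) = -((n + e j : ℕ) : ℤ) := by
      rw [hn]
      push_cast
      ring
    rw [h, Int.natAbs_neg, Int.natAbs_natCast] at p6
    exact p6
  · intro q hq hqj
    exact hle9.trans_lt (p7 q hq ((hd j q).2 hqj))

/-- **the count** -/
theorem count {k : ℕ} (hk : 1 ≤ k) (e : Fin k → ℕ) (he : Pat e) : ∃ t : ℕ, 2 ≤ t ∧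
    ∃ κ : ℝ, 0 < κ ∧ ∀ θ : ℝ, 0 < θ → ∀ᶠ X : ℕ in atTop, ∀ i j : Fin k, i ≠ j → ∀ Y : ℕ,
      θ * X ≤ Y → Y ≤ X → κ * Y / Real.log X ^ k ≤ N (T e t i j) X (X + Y) := by
  classical
  obtain ⟨t, ht, c, hc, H, -⟩ := genF (k - 1)
  obtain ⟨c', hc', hV⟩ := VF_low (k - 1)
  refine ⟨t + 1, by omega, c * c' / 2 ^ k, by positivity, ?_⟩
  intro θ hθ
  obtain ⟨X₀, h1⟩ := H (θ / 3) (by positivity)
  filter_upwards [eventually_ge_atTop (X₀ + 3 + ∑ l, e l)] with X hX i j hij Y hY hYX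
  have hel : ∀ l, e l ≤ X := fun l => by
    have : e l ≤ ∑ l, e l := single_le_sum (f := e) (fun _ _ => Nat.zero_le _) (mem_univ l)
    omega
  have hX3 : 3 ≤ X := by omega
  have hS := sysF he (i := i) (j := j) (fun h => hij h.symm) (X := 3 * X)
    (fun l => (hel l).trans (by omega))
  have hei := hel i
  have h2 := h1 (3 * X) (by omega) (F e i) _ hS (X + e i) (X + Y + e i) (by omega) (by
    push_cast
    linarith)
  have e1 : (((X + Y + e i : ℕ) : ℝ) - ((X + e i : ℕ) : ℝ)) = Y := by push_cast; ring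
  rw [e1] at h2
  have hXr : (3 : ℝ) ≤ X := by exact_mod_cast hX3
  have hlX : 0 < Real.log X := Real.log_pos (by linarith)
  have hl3 : Real.log ((3 * X : ℕ) : ℝ) ≤ 2 * Real.log X := by
    push_cast
    rw [Real.log_mul (by norm_num) (by linarith)]
    have := Real.log_le_log (by norm_num) hXr
    linarith
  have hl30 : 0 < Real.log ((3 * X : ℕ) : ℝ) := Real.log_pos (by
    push_cast
    linarith)
  have h3 := hV (3 * X) (by omega) (F e i) (fun q _ => F_card e i q) (loc he i)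
  have hk1 : k - 1 + 1 = k := by omega
  rw [hk1] at h3
  have h4 : c' / 2 ^ k / Real.log X ^ k ≤ VF (F e i) (3 * X) := by
    refine le_trans ?_ h3
    rw [div_div, ← mul_pow]
    exact div_le_div_of_nonneg_left hc'.le (by positivity) (pow_le_pow_left₀ hl30.le hl3 _)
  have h5 : c * c' / 2 ^ k * Y / Real.log X ^ k ≤
      ((GoodF t (3 * X) (X + e i) (X + Y + e i) (F e i) ((e i : ℤ) - e j)).card : ℝ) := by
    refine le_trans ?_ h2
    calc c * c' / 2 ^ k * Y / Real.log X ^ k = c * Y * (c' / 2 ^ k / Real.log X ^ k) := by ring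
      _ ≤ _ := mul_le_mul_of_nonneg_left h4 (by positivity)
  refine h5.trans ?_
  have h6 : (GoodF t (3 * X) (X + e i) (X + Y + e i) (F e i) ((e i : ℤ) - e j)).card ≤
      N (T e (t + 1) i j) X (X + Y) := by
    unfold Pool.Agent.TH977.PW.N
    refine card_le_card_of_injOn (fun p => p - e i) ?_ ?_
    · intro p hp
      obtain ⟨g1, g2, g3⟩ := good_T ht (by omega) (by omega) hp
      rw [mem_coe, mem_filter, mem_Ioc]
      show (X < p - e i ∧ p - e i ≤ X + Y) ∧ p - e i ∈ T e (t + 1) i j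
      exact ⟨⟨by omega, by omega⟩, T_mono e ht (by omega) i j g1⟩
    · intro p hp q hq hpq
      have hp' := mem_coe.1 hp
      have hq' := mem_coe.1 hq
      unfold GoodF at hp' hq'
      rw [mem_filter, mem_Ioc] at hp' hq'
      have h7 : p - e i = q - e i := hpq
      omega
  exact_mod_cast h6

/-- the polynomial system of a pattern -/
lemma sys_pat {k : ℕ} {e : Fin k → ℕ} (he : Pat e) : Poly.Sys (fun l => lin 1 (e l)) where
  irr := fun l => lin_irr 1 _ one_pos (by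
    rw [Nat.cast_one]
    exact isCoprime_one_left)
  deg := fun l => lin_deg 1 _ one_pos
  lead := fun l => lin_lead 1 _ one_pos
  inj := by
    intro l l' h
    have h1 : (lin 1 (e l)).eval 0 = (lin 1 (e l')).eval 0 := congrArg (fun f => f.eval 0) h
    rw [lin_eval, lin_eval] at h1
    apply he.inj
    have : (e l : ℤ) = e l' := by simpa using h1
    exact_mod_cast this
  adm := by
    intro p hp
    obtain ⟨m, hm⟩ := he.adm p hp
    refine ⟨m, fun l hd => hm l ?_⟩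
    rw [lin_eval] at hd
    have h1 : ((1 : ℕ) : ℤ) * (m : ℤ) + e l = ((m + e l : ℕ) : ℤ) := by push_cast; ring
    rwa [h1, Int.natCast_dvd_natCast] at hd

/-- **the hereditary statement** -/
theorem hered {k : ℕ} (hk : 1 ≤ k) (e : Fin k → ℕ) (he : Pat e) (s : ℕ) (hs : 2 ≤ s) (θ : ℝ) (hθ : 0 < θ)
    (l : ℕ) (hl : 2 ≤ l) (ε : ℝ) (hε : 0 < ε) :
    ∃ B : ℕ, ∀ᶠ X : ℕ in atTop, ∀ Y : ℕ, (X : ℝ) ^ θ ≤ Y → Y ≤ X → ∀ A : Set ℕ, A ⊆ R e s →
      (N (Outside A l (Real.log X ^ B) X (X + Y)) X (X + Y) : ℝ) ≤ ε * Y / Real.log X ^ k := by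
  have : Nonempty (Fin k) := ⟨⟨0, by omega⟩⟩
  obtain ⟨B, hB⟩ := Pool.Agent.Y677.RSZ.narrow (fun l => lin 1 (e l)) (sys_pat he) θ hθ s hs l hl ε hε
  refine ⟨B, ?_⟩
  filter_upwards [hB] with X hX Y hXY hYX A hA
  have h4 := hX Y hXY hYX A (fun m hm => by
    intro i p hp hd
    refine hA hm i p hp ?_
    rw [lin_eval] at hd
    have h1 : ((1 : ℕ) : ℤ) * (m : ℤ) + e i = ((m + e i : ℕ) : ℤ) := by push_cast; ring
    rwa [h1, Int.natCast_dvd_natCast] at hd)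
  rwa [Fintype.card_fin] at h4

/-- progressions in all intervals of length `θ X` -/
theorem prog_interval {R' Al : Set ℕ} (hAR : Al ⊆ R') (k : ℕ) {κ : ℝ} (hκ : 0 < κ) (θ : ℝ)
    (hθ : 0 < θ)
    (h1 : ∀ᶠ X : ℕ in atTop, ∀ Y : ℕ, θ * X ≤ Y → Y ≤ X → κ * Y / Real.log X ^ k ≤ N Al X (X + Y))
    (h2 : ∀ l : ℕ, 2 ≤ l → ∀ ε : ℝ, 0 < ε → ∃ B : ℕ, ∀ᶠ X : ℕ in atTop, ∀ Y : ℕ,
      (X : ℝ) ^ (1 / 2 : ℝ) ≤ Y → Y ≤ X → ∀ A : Set ℕ, A ⊆ R' →
        (N (Outside A l (Real.log X ^ B) X (X + Y)) X (X + Y) : ℝ) ≤ ε * Y / Real.log X ^ k)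
    (l : ℕ) : ∃ B : ℕ, ∀ᶠ X : ℕ in atTop, ∀ Y : ℕ, θ * X ≤ Y → Y ≤ X →
      ∃ u d : ℕ, 1 ≤ d ∧ (d : ℝ) ≤ Real.log X ^ B ∧
        ∀ i < l, u + i * d ∈ Al ∧ X < u + i * d ∧ u + i * d ≤ X + Y := by
  obtain ⟨B, hB⟩ := h2 (l + 2) (by omega) (κ / 2) (by positivity)
  refine ⟨B, ?_⟩
  have hbig : ∀ᶠ X : ℕ in atTop, 1 / θ ≤ (X : ℝ) ^ (1 / 2 : ℝ) :=
    ((tendsto_rpow_atTop (show (0 : ℝ) < 1 / 2 by norm_num)).comp
      tendsto_natCast_atTop_atTop).eventually (eventually_ge_atTop _)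
  filter_upwards [h1, hB, eventually_ge_atTop 3, hbig] with X hX1 hX2 hX3 hX4 Y hY hYX
  have hX3r : (3 : ℝ) ≤ X := by exact_mod_cast hX3
  have hX0 : (0 : ℝ) < X := by linarith
  have hlog : 0 < Real.log X := Real.log_pos (by linarith)
  have hY0 : (0 : ℝ) < Y := lt_of_lt_of_le (by positivity) hY
  have hXY : (X : ℝ) ^ (1 / 2 : ℝ) ≤ Y := by
    refine le_trans ?_ hY
    have h5 : (X : ℝ) = (X : ℝ) ^ (1 / 2 : ℝ) * (X : ℝ) ^ (1 / 2 : ℝ) := by
      rw [← Real.rpow_add hX0]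
      norm_num
    have h6 : 1 ≤ θ * (X : ℝ) ^ (1 / 2 : ℝ) := by
      rw [div_le_iff₀ hθ] at hX4
      linarith
    calc (X : ℝ) ^ (1 / 2 : ℝ) = 1 * (X : ℝ) ^ (1 / 2 : ℝ) := (one_mul _).symm
      _ ≤ (θ * (X : ℝ) ^ (1 / 2 : ℝ)) * (X : ℝ) ^ (1 / 2 : ℝ) :=
          mul_le_mul_of_nonneg_right h6 (by positivity)
      _ = θ * X := by rw [mul_assoc, ← h5]
  have h3 := hX2 Y hXY hYX Al hAR
  obtain ⟨u, d, h4, h5, h6⟩ := Pool.Agent.Y677.RSZ.prog_of_count Al (l + 2) (Real.log X ^ B) X (X + Y)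
    (κ / 2 * Y / Real.log X ^ k) (lt_of_lt_of_le (by
      apply div_lt_div_of_pos_right _ (by positivity)
      nlinarith) (hX1 Y hY hYX)) h3
  exact ⟨u, d, h4, h5, fun i hi => h6 i (by omega)⟩

/-- prime patterns are in the sets -/
lemma mem_R_of_prime {k : ℕ} (e : Fin k → ℕ) (s : ℕ) (hs : 2 ≤ s) (n : ℕ)
    (hn : ∀ l, (n + e l).Prime) : n ∈ R e s := by
  intro l p hp hd
  rw [(Nat.prime_dvd_prime_iff_eq hp (hn l)).1 hd]
  rcases Nat.lt_or_ge n 2 with h | h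
  · have h1 : (n : ℝ) ≤ 1 := by exact_mod_cast (by omega : n ≤ 1)
    have h2 : (n : ℝ) ^ (1 / (s : ℝ)) ≤ 1 := Real.rpow_le_one (Nat.cast_nonneg n) h1 (by positivity)
    have h3 : (1 : ℝ) < (n + e l : ℕ) := by exact_mod_cast (hn l).one_lt
    linarith
  · exact Pool.Agent.TH977.PW.rpow_lt_of_le s n _ hs h (by omega)

lemma mem_T_of_prime {k : ℕ} (e : Fin k → ℕ) (t : ℕ) (ht : 2 ≤ t) (n : ℕ)
    (hn : ∀ l, (n + e l).Prime) (i j : Fin k) : n ∈ T e t i j := by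
  refine ⟨mem_R_of_prime e t ht n hn, hn i, by rw [Nat.primeFactorsList_prime (hn j)]; simp, ?_⟩
  intro p hp hd
  have h := mem_R_of_prime e 9 (by norm_num) n hn j p hp hd
  exact_mod_cast h

/-- **everything for a pattern** -/
theorem pattern {k : ℕ} (hk : 1 ≤ k) (e : Fin k → ℕ) (he : Pat e) : ∃ t : ℕ, 2 ≤ t ∧
    (∃ κ : ℝ, 0 < κ ∧ ∀ θ : ℝ, 0 < θ → ∀ᶠ X : ℕ in atTop, ∀ i j : Fin k, i ≠ j → ∀ Y : ℕ,
      θ * X ≤ Y → Y ≤ X → κ * Y / Real.log X ^ k ≤ N (T e t i j) X (X + Y)) ∧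
    ∀ i j : Fin k, i ≠ j → ∀ θ : ℝ, 0 < θ → ∀ l : ℕ, ∃ B : ℕ, ∀ᶠ X : ℕ in atTop, ∀ Y : ℕ,
      θ * X ≤ Y → Y ≤ X → ∃ u d : ℕ, 1 ≤ d ∧ (d : ℝ) ≤ Real.log X ^ B ∧
        ∀ m < l, u + m * d ∈ T e t i j ∧ X < u + m * d ∧ u + m * d ≤ X + Y := by
  obtain ⟨t, ht, κ, hκ, h⟩ := count hk e he
  refine ⟨t, ht, ⟨κ, hκ, h⟩, fun i j hij θ hθ l => ?_⟩
  exact prog_interval (fun _ hn => hn.1) k hκ θ hθ
    ((h θ hθ).mono fun X hX Y h1 h2 => hX i j hij Y h1 h2)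
    (fun l hl ε hε => hered hk e he t ht (1 / 2) (by norm_num) l hl ε hε) l

end Pool.Agent.Y677.KC
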