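import Pool.Agent.Y677.KC.Pat

set_option autoImplicit false

/-!
# Chen's theorem for patterns in residue classes modulo squarefree numbers
-/

open Polynomial Finset Filter Topology

namespace Pool.Agent.Y677.KC

open Pool.Agent.TH977.PW (N)
open Pool.Agent.Y677.RSZ (InProg Outside)
open Pool.Agent.Y840.CT (SysF GoodF VF VF_low genF rho)

open Classical in
/-- the shifts and, for the primes dividing `Q`, all the other classes -/
noncomputable def FQ {k : ℕ} (e : Fin k → ℕ) (i : Fin k) (a Q q : ℕ) : Finset ℤ :=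
  F e i q ∪ if q ∣ Q then (Ico (0 : ℤ) q).erase (((e i : ℤ) + a) % q) else ∅

lemma FQ_card {k : ℕ} (e : Fin k → ℕ) (i : Fin k) (a : ℕ) {Q : ℕ} (hQ : 0 < Q) (q : ℕ) :
    (FQ e i a Q q).card ≤ k - 1 + Q := by
  classical
  unfold FQ
  refine (card_union_le _ _).trans (add_le_add (F_card e i q) ?_)
  split_ifs with h
  · refine (card_erase_le).trans ?_
    rw [Int.card_Ico]
    have := Nat.le_of_dvd hQ h
    omega
  · simp

lemma not_cls {k : ℕ} {e : Fin k → ℕ} {i l : Fin k} {a q : ℕ} (h : ¬ q ∣ a + e l) :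
    ¬ ((e i : ℤ) - e l) % q = ((e i : ℤ) + a) % q := by
  intro hxc
  apply h
  have h1 : (q : ℤ) ∣ ((e i : ℤ) + a) - ((e i : ℤ) - e l) := by
    have h2 : ((e i : ℤ) - e l) ≡ (e i : ℤ) + a [ZMOD q] := hxc
    exact Int.modEq_iff_dvd.1 h2
  have h3 : ((e i : ℤ) + a) - ((e i : ℤ) - e l) = ((a + e l : ℕ) : ℤ) := by
    push_cast
    ring
  rwa [h3, Int.natCast_dvd_natCast] at h1

lemma locQ {k : ℕ} {e : Fin k → ℕ} (he : Pat e) (i : Fin k) {a Q : ℕ}
    (ha : ∀ l, Nat.Coprime (a + e l) Q) (q : ℕ) (hq : q.Prime) : rho (FQ e i a Q q) q < q := by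
  classical
  by_cases hqQ : q ∣ Q
  · have hq0 : (0 : ℤ) < q := by exact_mod_cast hq.pos
    have hne : (q : ℤ) ≠ 0 := hq0.ne'
    have hn : ∀ l, ¬ q ∣ a + e l := by
      intro l hd
      have := Nat.dvd_gcd hd hqQ
      rw [(ha l : Nat.gcd _ _ = 1)] at this
      exact hq.one_lt.ne' (Nat.dvd_one.1 this)
    set c : ℤ := ((e i : ℤ) + a) % q with hc
    have hc0 : 0 ≤ c := Int.emod_nonneg _ hne
    have hcq : c < q := Int.emod_lt_of_pos _ hq0
    have hsub : (insert 0 (FQ e i a Q q)).image (fun h : ℤ => h % q) ⊆ (Ico (0 : ℤ) q).erase c := by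
      intro x hx
      rw [mem_image] at hx
      obtain ⟨h, hh, rfl⟩ := hx
      rw [mem_erase, mem_Ico]
      refine ⟨fun hxc => ?_, Int.emod_nonneg _ hne, Int.emod_lt_of_pos _ hq0⟩
      rw [mem_insert] at hh
      rcases hh with hh | hh
      · refine not_cls (i := i) (hn i) ?_
        rw [sub_self, ← hh]
        exact hxc
      · unfold FQ at hh
        rw [if_pos hqQ, mem_union] at hh
        rcases hh with hh | hh
        · unfold F at hh
          rw [mem_image] at hh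
          obtain ⟨l, _, hl⟩ := hh
          refine not_cls (i := i) (hn l) ?_
          rw [hl]
          exact hxc
        · rw [mem_erase, mem_Ico] at hh
          have h5 : h % q = h := Int.emod_eq_of_lt hh.2.1 hh.2.2
          have hxc' : h % (q : ℤ) = c := hxc
          rw [h5] at hxc'
          exact hh.1 hxc'
    unfold rho
    refine lt_of_le_of_lt (card_le_card hsub) ?_
    rw [card_erase_of_mem (mem_Ico.2 ⟨hc0, hcq⟩), Int.card_Ico]
    have := hq.pos
    omega
  · have h1 : FQ e i a Q q = F e i q := by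
      unfold FQ
      rw [if_neg hqQ, union_empty]
    rw [h1]
    exact loc he i q hq

lemma sysFQ {k : ℕ} {e : Fin k → ℕ} (he : Pat e) {i j : Fin k} (hij : j ≠ i) {a Q X : ℕ} (hQ : 0 < Q)
    (ha : ∀ l, Nat.Coprime (a + e l) Q) (hX : ∀ l, e l ≤ X) :
    SysF (k - 1 + Q) X (FQ e i a Q) ((e i : ℤ) - e j) := by
  classical
  refine ⟨fun q _ => FQ_card e i a hQ q, ?_, ?_, fun q _ => ?_, locQ he i ha⟩
  · intro h
    have h3 : e i = e j := by omega
    exact hij (he.inj h3).symm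
  · have h1 := hX i
    have h2 := hX j
    rw [abs_le]
    constructor <;> omega
  · unfold FQ
    exact mem_union_left _ (mem_F hij q)

/-- the sieve product in the class -/
lemma VF_cls {k : ℕ} {e : Fin k → ℕ} (he : Pat e) (i : Fin k) {a Q : ℕ} (hQ : 0 < Q)
    (ha : ∀ l, Nat.Coprime (a + e l) Q) (X : ℕ) : 1 / (Q : ℝ) * VF (F e i) X ≤ VF (FQ e i a Q) X := by
  classical
  have hQr : (0 : ℝ) < Q := by exact_mod_cast hQ
  have h01 : ∀ q : ℕ, q.Prime → 0 ≤ 1 - (rho (F e i q) q : ℝ) / q ∧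
      1 - (rho (F e i q) q : ℝ) / q ≤ 1 := by
    intro q hq
    have h0 : (0 : ℝ) < q := by exact_mod_cast hq.pos
    have h1 : (rho (F e i q) q : ℝ) ≤ q := by exact_mod_cast (loc he i q hq).le
    constructor
    · rw [sub_nonneg, div_le_one h0]
      exact h1
    · have : 0 ≤ (rho (F e i q) q : ℝ) / q := by positivity
      linarith
  have hprod : 1 / (Q : ℝ) ≤ ∏ q ∈ (Icc 1 X).filter Nat.Prime, (if q ∣ Q then 1 / (q : ℝ) else 1) := by
    rw [← prod_filter]
    have hs : ((Icc 1 X).filter Nat.Prime).filter (fun q => q ∣ Q) ⊆ Q.primeFactors := by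
      intro q hq
      rw [mem_filter, mem_filter] at hq
      exact Nat.mem_primeFactors.2 ⟨hq.1.2, hq.2, hQ.ne'⟩
    have h1 : ∏ q ∈ Q.primeFactors, (1 / (q : ℝ)) ≤
        ∏ q ∈ ((Icc 1 X).filter Nat.Prime).filter (fun q => q ∣ Q), (1 / (q : ℝ)) := by
      rw [← prod_sdiff hs]
      apply mul_le_of_le_one_left
      · exact prod_nonneg fun _ _ => by positivity
      · apply prod_le_one
        · intro q _
          positivity
        · intro q hq
          have h2 : (1 : ℝ) ≤ q := by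
            exact_mod_cast (Nat.prime_of_mem_primeFactors (mem_sdiff.1 hq).1).one_lt.le
          rw [div_le_one (by linarith)]
          exact h2
    refine le_trans ?_ h1
    rw [prod_div_distrib, prod_const_one]
    apply one_div_le_one_div_of_le
    · exact prod_pos fun q hq => by
        exact_mod_cast (Nat.prime_of_mem_primeFactors hq).pos
    · have h2 : ∏ q ∈ Q.primeFactors, q ≤ Q := Nat.le_of_dvd hQ (Nat.prod_primeFactors_dvd Q)
      calc ∏ q ∈ Q.primeFactors, (q : ℝ) = ((∏ q ∈ Q.primeFactors, q : ℕ) : ℝ) := by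
            rw [Nat.cast_prod]
        _ ≤ Q := by exact_mod_cast h2
  have hV0 : 0 ≤ VF (F e i) X := prod_nonneg fun q hq => (h01 q (mem_filter.1 hq).2).1
  refine (mul_le_mul_of_nonneg_right hprod hV0).trans ?_
  unfold VF
  rw [← prod_mul_distrib]
  apply Finset.prod_le_prod
  · intro q hq
    apply mul_nonneg
    · split_ifs <;> positivity
    · exact (h01 q (mem_filter.1 hq).2).1
  · intro q hq
    have hqp := (mem_filter.1 hq).2
    have h0 : (0 : ℝ) < q := by exact_mod_cast hqp.pos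
    split_ifs with hqQ
    · have h2 : (rho (FQ e i a Q q) q : ℝ) + 1 ≤ q := by exact_mod_cast locQ he i ha q hqp
      calc 1 / (q : ℝ) * (1 - (rho (F e i q) q : ℝ) / q) ≤ 1 / (q : ℝ) * 1 :=
            mul_le_mul_of_nonneg_left (h01 q hqp).2 (by positivity)
        _ = 1 / (q : ℝ) := mul_one _
        _ ≤ 1 - (rho (FQ e i a Q q) q : ℝ) / q := by
            rw [le_sub_iff_add_le, ← add_div, div_le_one h0]
            linarith
    · have h1 : FQ e i a Q q = F e i q := by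
        unfold FQ
        rw [if_neg hqQ, union_empty]
      rw [h1, one_mul]

/-- the class modulo a squarefree number -/
lemma modEq_of_primes {n a Q : ℕ} (hQ : Squarefree Q) (h : ∀ q : ℕ, q.Prime → q ∣ Q → n ≡ a [MOD q]) :
    n ≡ a [MOD Q] := by
  have h1 : Q ∣ ((a : ℤ) - n).natAbs := by
    have h2 : ∏ q ∈ Q.primeFactors, q ∣ ((a : ℤ) - n).natAbs := by
      apply Finset.prod_primes_dvd
      · intro q hq
        exact (Nat.prime_of_mem_primeFactors hq).prime
      · intro q hq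
        have h3 := h q (Nat.prime_of_mem_primeFactors hq) (Nat.dvd_of_mem_primeFactors hq)
        have h4 := (Nat.modEq_iff_dvd.1 h3)
        exact Int.natCast_dvd.1 h4
    rwa [Nat.prod_primeFactors_of_squarefree hQ] at h2
  rw [Nat.modEq_iff_dvd]
  exact Int.natCast_dvd.2 h1

/-- **the count in residue classes** -/
theorem count_cls {k : ℕ} (hk : 1 ≤ k) (e : Fin k → ℕ) (he : Pat e) (a Q : ℕ) (hQ : Squarefree Q)
    (ha : ∀ l, Nat.Coprime (a + e l) Q) : ∃ t : ℕ, 2 ≤ t ∧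
    ∃ κ : ℝ, 0 < κ ∧ ∀ θ : ℝ, 0 < θ → ∀ᶠ X : ℕ in atTop, ∀ i j : Fin k, i ≠ j → ∀ Y : ℕ,
      θ * X ≤ Y → Y ≤ X →
        κ * Y / Real.log X ^ k ≤ N {n | n ≡ a [MOD Q] ∧ n ∈ T e t i j} X (X + Y) := by
  classical
  have hQ0 : 0 < Q := Nat.pos_of_ne_zero hQ.ne_zero
  have hQr : (0 : ℝ) < Q := by exact_mod_cast hQ0
  obtain ⟨t, ht, c, hc, H, -⟩ := genF (k - 1 + Q)
  obtain ⟨c', hc', hV⟩ := VF_low (k - 1)
  have ht0 : (0 : ℝ) < t := by exact_mod_cast ht
  refine ⟨t + 1, by omega, c * (1 / Q) * c' / 2 ^ k, by positivity, ?_⟩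
  intro θ hθ
  obtain ⟨X₀, h1⟩ := H (θ / 3) (by positivity)
  have hbig : ∀ᶠ X : ℕ in atTop, (Q : ℝ) ≤ (X : ℝ) ^ (1 / (t : ℝ)) :=
    ((tendsto_rpow_atTop (show (0 : ℝ) < 1 / (t : ℝ) by positivity)).comp
      tendsto_natCast_atTop_atTop).eventually (eventually_ge_atTop _)
  filter_upwards [eventually_ge_atTop (X₀ + 3 + ∑ l, e l), hbig] with X hX hXQ i j hij Y hY hYX
  have hel : ∀ l, e l ≤ X := fun l => by
    have : e l ≤ ∑ l, e l := single_le_sum (f := e) (fun _ _ => Nat.zero_le _) (mem_univ l)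
    omega
  have hX3 : 3 ≤ X := by omega
  have hS := sysFQ he (i := i) (j := j) (fun h => hij h.symm) (X := 3 * X) hQ0 ha
    (fun l => (hel l).trans (by omega))
  have hei := hel i
  have h2 := h1 (3 * X) (by omega) (FQ e i a Q) _ hS (X + e i) (X + Y + e i) (by omega) (by
    push_cast
    linarith)
  have e1 : (((X + Y + e i : ℕ) : ℝ) - ((X + e i : ℕ) : ℝ)) = Y := by push_cast; ring
  rw [e1] at h2
  have hXr : (3 : ℝ) ≤ X := by exact_mod_cast hX3
  have hlX : 0 < Real.log X := Real.log_pos (by linarith)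
  have hl3 : Real.log ((3 * X : ℕ) : ℝ) ≤ 2 * Real.log X := by
    push_cast
    rw [Real.log_mul (by norm_num) (by linarith)]
    have := Real.log_le_log (by norm_num) hXr
    linarith
  have hl30 : 0 < Real.log ((3 * X : ℕ) : ℝ) := Real.log_pos (by
    push_cast
    linarith)
  have h3 := hV (3 * X) (by omega) (F e i) (fun q _ => F_card e i q) (loc he i)
  have hk1 : k - 1 + 1 = k := by omega
  rw [hk1] at h3
  have h4 : 1 / (Q : ℝ) * (c' / 2 ^ k / Real.log X ^ k) ≤ VF (FQ e i a Q) (3 * X) := by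
    refine le_trans ?_ (VF_cls he i hQ0 ha (3 * X))
    apply mul_le_mul_of_nonneg_left _ (by positivity)
    refine le_trans ?_ h3
    rw [div_div, ← mul_pow]
    exact div_le_div_of_nonneg_left hc'.le (by positivity) (pow_le_pow_left₀ hl30.le hl3 _)
  have h5 : c * (1 / Q) * c' / 2 ^ k * Y / Real.log X ^ k ≤
      ((GoodF t (3 * X) (X + e i) (X + Y + e i) (FQ e i a Q) ((e i : ℤ) - e j)).card : ℝ) := by
    refine le_trans ?_ h2
    calc c * (1 / Q) * c' / 2 ^ k * Y / Real.log X ^ k =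
          c * Y * (1 / (Q : ℝ) * (c' / 2 ^ k / Real.log X ^ k)) := by ring
      _ ≤ _ := mul_le_mul_of_nonneg_left h4 (by positivity)
  refine h5.trans ?_
  obtain ⟨S, hSdef⟩ : ∃ S : Set ℕ, S = {n | n ≡ a [MOD Q] ∧ n ∈ T e (t + 1) i j} := ⟨_, rfl⟩
  rw [← hSdef]
  have h6 : (GoodF t (3 * X) (X + e i) (X + Y + e i) (FQ e i a Q) ((e i : ℤ) - e j)).card ≤
      N S X (X + Y) := by
    unfold Pool.Agent.TH977.PW.N
    refine card_le_card_of_injOn (fun p => p - e i) ?_ ?_
    · intro p hp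
      have hp' := mem_coe.1 hp
      have hp2 : p ∈ GoodF t (3 * X) (X + e i) (X + Y + e i) (F e i) ((e i : ℤ) - e j) := by
        unfold GoodF at hp' ⊢
        rw [mem_filter] at hp' ⊢
        refine ⟨hp'.1, hp'.2.1, hp'.2.2.1, hp'.2.2.2.1, fun q hq hqX h hh => ?_⟩
        refine hp'.2.2.2.2 q hq hqX h ?_
        unfold FQ
        exact mem_union_left _ hh
      obtain ⟨g1, g2, g3⟩ := good_T ht (by omega) (by omega) hp2
      rw [mem_coe, mem_filter, mem_Ioc]
      show (X < p - e i ∧ p - e i ≤ X + Y) ∧ p - e i ∈ S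
      rw [hSdef]
      refine ⟨⟨by omega, by omega⟩, ?_, T_mono e ht (by omega) i j g1⟩
      apply modEq_of_primes hQ
      intro q hq hqQ
      -- otherwise the class is sifted out
      by_contra hcon
      have hq0 : (0 : ℤ) < q := by exact_mod_cast hq.pos
      unfold GoodF at hp'
      rw [mem_filter, mem_Ioc] at hp'
      obtain ⟨⟨p1, p2⟩, p3, p4, p5, p6⟩ := hp'
      have hqX : (q : ℝ) ≤ ((3 * X : ℕ) : ℝ) ^ (1 / (t : ℝ)) := by
        have h7 : (q : ℝ) ≤ Q := by exact_mod_cast Nat.le_of_dvd hQ0 hqQ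
        have h8 : (X : ℝ) ^ (1 / (t : ℝ)) ≤ ((3 * X : ℕ) : ℝ) ^ (1 / (t : ℝ)) :=
          Real.rpow_le_rpow (Nat.cast_nonneg X) (by push_cast; linarith) (by positivity)
        linarith
      refine p6 q hq hqX ((p : ℤ) % q) ?_ ?_
      · unfold FQ
        rw [if_pos hqQ]
        apply mem_union_right
        rw [mem_erase, mem_Ico]
        refine ⟨fun hx => hcon ?_, Int.emod_nonneg _ hq0.ne', Int.emod_lt_of_pos _ hq0⟩
        have h9 : (p : ℤ) ≡ (e i : ℤ) + a [ZMOD q] := hx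
        have h10 : ((p - e i : ℕ) : ℤ) ≡ (a : ℤ) [ZMOD q] := by
          have h11 : ((p - e i : ℕ) : ℤ) = (p : ℤ) - e i := by
            push_cast [Nat.cast_sub (by omega : e i ≤ p)]
            ring
          rw [h11]
          have h12 := h9.sub_right (e i : ℤ)
          have h13 : (e i : ℤ) + a - e i = a := by ring
          rwa [h13] at h12
        exact (Int.natCast_modEq_iff).1 h10
      · have h9 : (p : ℤ) % q ≡ p [ZMOD q] := Int.mod_modEq _ _
        exact Int.modEq_iff_dvd.1 h9.symm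
    · intro p hp q hq hpq
      have hp' := mem_coe.1 hp
      have hq' := mem_coe.1 hq
      unfold GoodF at hp' hq'
      rw [mem_filter, mem_Ioc] at hp' hq'
      have h7 : p - e i = q - e i := hpq
      omega
  exact_mod_cast h6

/-- **everything for a pattern in a residue class** -/
theorem pattern_cls {k : ℕ} (hk : 1 ≤ k) (e : Fin k → ℕ) (he : Pat e) (a Q : ℕ) (hQ : Squarefree Q)
    (ha : ∀ l, Nat.Coprime (a + e l) Q) : ∃ t : ℕ, 2 ≤ t ∧
    (∃ κ : ℝ, 0 < κ ∧ ∀ θ : ℝ, 0 < θ → ∀ᶠ X : ℕ in atTop, ∀ i j : Fin k, i ≠ j → ∀ Y : ℕ,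
      θ * X ≤ Y → Y ≤ X →
        κ * Y / Real.log X ^ k ≤ N {n | n ≡ a [MOD Q] ∧ n ∈ T e t i j} X (X + Y)) ∧
    ∀ i j : Fin k, i ≠ j → ∀ θ : ℝ, 0 < θ → ∀ l : ℕ, ∃ B : ℕ, ∀ᶠ X : ℕ in atTop, ∀ Y : ℕ,
      θ * X ≤ Y → Y ≤ X → ∃ u d : ℕ, 1 ≤ d ∧ (d : ℝ) ≤ Real.log X ^ B ∧
        ∀ m < l, (u + m * d ≡ a [MOD Q] ∧ u + m * d ∈ T e t i j) ∧ X < u + m * d ∧
          u + m * d ≤ X + Y := by
  obtain ⟨t, ht, κ, hκ, h⟩ := count_cls hk e he a Q hQ ha
  refine ⟨t, ht, ⟨κ, hκ, h⟩, fun i j hij θ hθ l => ?_⟩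
  exact prog_interval (R' := R e t) (Al := {n | n ≡ a [MOD Q] ∧ n ∈ T e t i j})
    (fun _ hn => hn.2.1) k hκ θ hθ
    ((h θ hθ).mono fun X hX Y h1 h2 => hX i j hij Y h1 h2)
    (fun l hl ε hε => hered hk e he t ht (1 / 2) (by norm_num) l hl ε hε) l

end Pool.Agent.Y677.KC
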